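import Mathlib
import Pool.Agent.H14.Colored

set_option autoImplicit false

namespace Pool.Agent.Results.MP_96deef_nt.Three

open Pool.Agent.H14.Colored in
theorem result : ∃ m : ℕ, 1 ≤ m ∧ ∀ n : ℕ, 1 ≤ n → u m n = 1 ∨ u m n = 2 :=
  ⟨3, by norm_num, main⟩

end Pool.Agent.Results.MP_96deef_nt.Three
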